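import Mathlib

/-! Determinant identities over a field. -/

namespace Pool.Agent.P.MP_60bbe2_gt

open Matrix

variable {K : Type} [Field K]

lemma cancel2 {M P Q : Matrix (Fin 2) (Fin 2) K} (h : M.det ≠ 0) (e : M * P = M * Q) : P = Q := by
  have := congrArg (fun Z => M⁻¹ * Z) e
  simpa [← mul_assoc, Matrix.nonsing_inv_mul M (isUnit_iff_ne_zero.2 h)] using this

lemma dx_alg (u a c : K) (hu : u ≠ 0) (E : Matrix (Fin 2) (Fin 2) K)
    (hE : (!![1 + u, 1; u, 1] - 1) * E =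
      (!![1 + u * a + u * c, a; u * a, 1 + u * c] - 1) * (- !![1 + u, 1; u, 1])) :
    E = - !![a + a * u + c * u, a + c; a * u + c * u, a] := by
  refine cancel2 (M := !![1 + u, 1; u, 1] - 1) ?_ (hE.trans ?_)
  · simp [det_fin_two, hu]
  · ext i j; fin_cases i <;> fin_cases j <;> simp [Matrix.mul_apply, Fin.sum_univ_two] <;> ring

lemma even_alg (t s a c : K) (ht : t ≠ 0) (hs : s ≠ 0) (ha : a ≠ 0)
    (R : a ^ 2 = a + 2 * c + s ^ 2 * c * (a + c)) (E : Matrix (Fin 2) (Fin 2) K)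
    (hE : (!![1 + a*c*s^4 + a*s^2 + a^2*s^4, - (a^2*s^2); a^2*s^4, 1 - a*c*s^4 - a*s^2] - 1) * E =
      (!![(2 + s^2*a + 2*s^2*c)/(s*a), -1/s; s, 0] - 1) *
        (- !![a + a*s^2 + c*s^2, a + c; a*s^2 + c*s^2, a] -
          (t⁻¹ • !![1 + a*c*s^4 + a*s^2 + a^2*s^4, - 1 - a*c*s^4 - a*s^2 - a^2*s^2 - a^2*s^4;
            a^2*s^4, 1 - a*c*s^4 - a*s^2 - a^2*s^4]) *
          (- !![a + a*s^2 + c*s^2, a + c; a*s^2 + c*s^2, a]))) :
    ((t • !![1, 1; 0, 1] - 1) * E - !![(2 + s^2*a + 2*s^2*c)/(s*a), -1/s; s, 0]).det =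
      t⁻¹ ^ 2 * ((t - 1) ^ 2 * ((s * (2 + s^2*a + 2*s^2*c) - 2 * s) *
        (s * (2 + s^2*a + 2*s^2*c) - 2 * (s^2*a)) / (s^2*a * s) ^ 3 * (t - 1) ^ 2 +
          2 * (1 / (s^2*a * s)) * t)) := by
  have e : E = !![- 2*c/(a^2*s) - c/(a) - c/(a*s) + c/(a*s*t) - c*s/(a) - 2/(a*s^3) +
      2/(a*s^3*t) - 2/(a*s) + 1/(s^2) - 1/(s^2*t) + 1/(s) + 1/(s*t),
      - 2*c/(a^2*s^3) + 2*c/(a^2*s^3*t) - c/(a*s^2) + c/(a*s^2*t) - c/(a*s) - c/(a*s*t) -
      2/(a*s^3) + 1/(s^3) - 1/(s^3*t) + 1/(s^2*t) - 1/(s*t);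
      c/(a) + c*s/(a) - c/(a*t) - 1/(s) + 1/(s*t),
      c/(a*s) - c/(a*s*t) - 1/(s^2) + 1/(s^2*t) - 1/(s*t)] := by
    refine cancel2 ?_ (hE.trans ?_)
    · have : (!![1 + a*c*s^4 + a*s^2 + a^2*s^4, - (a^2*s^2); a^2*s^4, 1 - a*c*s^4 - a*s^2] -
          1 : Matrix (Fin 2) (Fin 2) K).det = - (s ^ 2 * a) ^ 2 := by
        simp [det_fin_two]
        linear_combination (a^2*s^6) * R
      rw [this]
      exact neg_ne_zero.2 (pow_ne_zero _ (mul_ne_zero (pow_ne_zero _ hs) ha))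
    · symm
      ext i j; fin_cases i <;> fin_cases j <;>
        simp only [Matrix.mul_apply, Fin.sum_univ_two, Matrix.sub_apply, Matrix.neg_apply,
          Matrix.smul_apply, of_apply, cons_val', cons_val_zero, cons_val_one, cons_val_fin_one,
          Fin.zero_eta, Fin.mk_one, Fin.isValue, one_apply_eq, smul_eq_mul,
          one_apply_ne (show (0 : Fin 2) ≠ 1 by decide),
          one_apply_ne (show (1 : Fin 2) ≠ 0 by decide)]
      · linear_combination (norm := (field_simp; ring)) (a*s^3/(t) + s - s/(t) + s^2 + s^3) * R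
      · linear_combination (norm := (field_simp; ring))
          (1 - a*s^2/(t) + a*s^3/(t) + 2*c*s^3/(t) + s + s/(t) - 1/(t)) * R
      · linear_combination (norm := (field_simp; ring)) (a*s^4/(t) + s^2 - s^2/(t) + s^3) * R
      · linear_combination (norm := (field_simp; ring)) (a*s^3/(t) + s - s/(t)) * R
  rw [e]
  simp only [det_fin_two, Matrix.mul_apply, Fin.sum_univ_two, Matrix.sub_apply,
    Matrix.smul_apply, of_apply, cons_val', cons_val_zero, cons_val_one, cons_val_fin_one,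
    Fin.isValue, one_apply_eq, smul_eq_mul,
    one_apply_ne (show (0 : Fin 2) ≠ 1 by decide), one_apply_ne (show (1 : Fin 2) ≠ 0 by decide)]
  linear_combination (norm := (field_simp; ring))
    (12/(a^3*s^5) + 2/(a^3*s^5*t^2) - 8/(a^3*s^5*t) - 8*t/(a^3*s^5) + 2*t^2/(a^3*s^5) +
      1/(a^2*s^3*t^2) - 2/(a^2*s^3*t) + 2*t/(a^2*s^3) - t^2/(a^2*s^3)) * R

lemma odd_alg (t u a c g : K) (R : a ^ 2 = a + 2 * c + u * c * (a + c))
    (hg : g = 1 + u * a + u * c) (Dw : Matrix (Fin 2) (Fin 2) K)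
    (hD : Dw = - !![a + a*u + c*u, a + c; a*u + c*u, a] -
      (t • !![1 - u*(g+a)*g, u*(g+a)^2; -(u*g^2), 1 + u*g*(g+a)]) *
        (- !![a + a*u + c*u, a + c; a*u + c*u, a] +
          !![1 + u * a + u * c, a; u * a, 1 + u * c] * - !![1 + u, 1; u, 1])) :
    Dw.det = (a + 2 * c) - 4 * (a + c) * t + (1 + u * (a + c) + 3 * a + 2 * c) * t ^ 2 ∧
    (Dw * (t • !![1, 0; -u, 1] - 1) - (t ^ 2 • (!![1 - u*(g+a)*g, u*(g+a)^2; -(u*g^2),
      1 + u*g*(g+a)] * !![1, 1; 0, 1]) - 1)).det =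
      (t - 1) ^ 2 * ((1 + u * (a + c) + 3 * a + 2 * c) - 4 * (a + c) * t + (a + 2 * c) * t ^ 2) := by
  subst hD hg
  constructor
  · simp only [det_fin_two, Matrix.mul_apply, Fin.sum_univ_two, Matrix.sub_apply, Matrix.add_apply,
      Matrix.neg_apply, Matrix.smul_apply, of_apply, cons_val', cons_val_zero, cons_val_one,
      cons_val_fin_one, Fin.isValue, smul_eq_mul]
    linear_combination (1 + a*c*t*u^3 - a^2*t*u^2 + c*t*u^2 + c^2*t*u^3 - 2*t + t^2) * R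
  · simp only [det_fin_two, Matrix.mul_apply, Fin.sum_univ_two, Matrix.sub_apply, Matrix.add_apply,
      Matrix.neg_apply, Matrix.smul_apply, of_apply, cons_val', cons_val_zero, cons_val_one,
      cons_val_fin_one, Fin.isValue, smul_eq_mul, one_apply_eq,
      one_apply_ne (show (0 : Fin 2) ≠ 1 by decide), one_apply_ne (show (1 : Fin 2) ≠ 0 by decide)]
    linear_combination (1 + a*c*t*u^3 - 2*a*c*t^2*u^3 + a*c*t^3*u^3 - 2*a*t*u^2 - a*t*u^3 +
      2*a*t^2*u^2 - a^2*t*u^2 + 2*a^2*t^2*u^2 - a^2*t^3*u^2 - c*t*u^3 + c^2*t*u^3 -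
      2*c^2*t^2*u^3 + c^2*t^3*u^3 - 4*t - t*u^2 + 6*t^2 - 4*t^3 + t^4) * R

lemma det_smul_sub (x : K) (M : Matrix (Fin 2) (Fin 2) K) :
    (x • M - 1).det = x ^ 2 * M.det - x * trace M + 1 := by
  simp [det_fin_two, trace_fin_two]; ring

/-- the mixed determinant -/
def mix {S : Type} [CommRing S] (M N : Matrix (Fin 2) (Fin 2) S) : S :=
  M 0 0 * N 1 1 + M 1 1 * N 0 0 - M 0 1 * N 1 0 - M 1 0 * N 0 1

lemma det_add_smul (x : K) (M N : Matrix (Fin 2) (Fin 2) K) :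
    (M + x • N).det = M.det + x * mix M N + x ^ 2 * N.det := by
  simp [det_fin_two, mix]; ring

lemma odd_split (t τ z : K) (ht : t ≠ 1) (A B W W' Y Dw E : Matrix (Fin 2) (Fin 2) K)
    (hW : W' * W = 1) (hz : W + W' = z • 1) (hd : W'.det = 1) (hz' : trace W' = z)
    (hY : Y * W' = W' * Y) (hAY : A * Y = Y * B) (hdY : Y.det = 1)
    (hA : (t • A - 1).det = (t - 1) ^ 2) (hB : (t • B - 1).det = (t - 1) ^ 2) (N N' : K)
    (hN : Dw.det = N) (hN' : (Dw * (t • B - 1) - (t ^ 2 • W - 1)).det = (t - 1) ^ 2 * N')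
    (hE : (t ^ 2 • W - 1) * E = (τ • Y - 1) * Dw) :
    ((t • A - 1) * E - τ • Y).det * (1 - z * t ^ 2 + t ^ 4) ^ 2 =
      (t - 1) ^ 2 * (1 - z * t ^ 2 + t ^ 4) * N +
      τ * mix (-((t • A - 1) * (t ^ 2 • W' - 1) * Dw))
        ((t • A - 1) * (t ^ 2 • W' - 1) * Y * Dw - (1 - z * t ^ 2 + t ^ 4) • Y) +
      τ ^ 2 * ((t - 1) ^ 2 * (1 - z * t ^ 2 + t ^ 4) * N') := by
  set Q := 1 - z * t ^ 2 + t ^ 4 with hQ
  have h1 : (t ^ 2 • W' - 1) * (t ^ 2 • W - 1) = Q • (1 : Matrix (Fin 2) (Fin 2) K) := by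
    have : (t ^ 2 • W' - 1) * (t ^ 2 • W - 1) =
        (t ^ 2 * t ^ 2) • (W' * W) - t ^ 2 • (W + W') + 1 := by
      simp only [sub_mul, mul_sub, smul_mul_smul_comm, mul_one, one_mul, smul_add]; abel
    rw [this, hW, hz, hQ]; module
  have hdQ : (t ^ 2 • W' - 1).det = Q := by rw [det_smul_sub, hd, hz', hQ]; ring
  have h2 : Q • E = (t ^ 2 • W' - 1) * ((τ • Y - 1) * Dw) := by
    rw [← hE, ← mul_assoc, h1]; simp
  have h3 : Q • ((t • A - 1) * E - τ • Y) = -((t • A - 1) * (t ^ 2 • W' - 1) * Dw) +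
      τ • ((t • A - 1) * (t ^ 2 • W' - 1) * Y * Dw - Q • Y) := by
    rw [smul_sub, ← Matrix.mul_smul, h2]
    generalize t • A - 1 = A1
    generalize t ^ 2 • W' - 1 = W1
    simp only [sub_mul, mul_sub, one_mul, Matrix.mul_smul, Matrix.smul_mul, mul_assoc, smul_sub]
    module
  have h4 := congrArg det h3
  rw [det_smul, det_add_smul, Fintype.card_fin] at h4
  have h5 : (-((t • A - 1) * (t ^ 2 • W' - 1) * Dw)).det = (t - 1) ^ 2 * Q * N := by
    rw [det_neg, det_mul, det_mul, hA, hdQ, hN, Fintype.card_fin]; ring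
  have h6 : ((t • A - 1) * (t ^ 2 • W' - 1) * Y * Dw - Q • Y).det = (t - 1) ^ 2 * Q * N' := by
    have e1 : (t • A - 1) * (t ^ 2 • W' - 1) * Y = Y * ((t • B - 1) * (t ^ 2 • W' - 1)) := by
      have a1 : (t ^ 2 • W' - 1) * Y = Y * (t ^ 2 • W' - 1) := by
        simp only [sub_mul, mul_sub, one_mul, mul_one, Matrix.mul_smul, Matrix.smul_mul, hY]
      have a2 : (t • A - 1) * Y = Y * (t • B - 1) := by
        simp only [sub_mul, mul_sub, one_mul, mul_one, Matrix.mul_smul, Matrix.smul_mul, hAY]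
      rw [mul_assoc, a1, ← mul_assoc, a2, mul_assoc]
    have e2 : ((t • A - 1) * (t ^ 2 • W' - 1) * Y * Dw - Q • Y) * (t • B - 1) =
        Y * ((t • B - 1) * ((t ^ 2 • W' - 1) * (Dw * (t • B - 1) - (t ^ 2 • W - 1)))) := by
      rw [e1, mul_sub (t ^ 2 • W' - 1), h1]
      generalize t • B - 1 = B1
      generalize t ^ 2 • W' - 1 = W1
      simp only [sub_mul, mul_sub, mul_one, Matrix.mul_smul, Matrix.smul_mul, mul_assoc]
    have e3 := congrArg det e2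
    rw [det_mul, det_mul, det_mul, det_mul, hB, hdY, hdQ, hN'] at e3
    have ht' : (t - 1) ^ 2 ≠ 0 := pow_ne_zero _ (sub_ne_zero.2 ht)
    apply mul_right_cancel₀ ht'
    rw [e3]; ring
  rw [h5, h6] at h4
  linear_combination h4

end Pool.Agent.P.MP_60bbe2_gt
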