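import Mathlib

/-!
Double twist knots `J(k, 2n)`: the two-generator presentation of the knot group, parabolic
representations and the twisted Alexander invariant of Wada.
-/

namespace Pool.Agent.P.MP_60bbe2_gt

open Matrix

/-- The group `SL(2, ℂ)`. -/
abbrev SL2 : Type := Matrix.SpecialLinearGroup (Fin 2) ℂ

/-- Two by two matrices over the field `ℂ(t)`. -/
abbrev Mat : Type := Matrix (Fin 2) (Fin 2) (RatFunc ℂ)

/-- The meridian `a`. -/
def ga : FreeGroup (Fin 2) := FreeGroup.of 0

/-- The meridian `b`. -/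
def gb : FreeGroup (Fin 2) := FreeGroup.of 1

/-- The word `w_k`: `(a b⁻¹)^m (a⁻¹ b)^m` if `k = 2m`, and `(a b⁻¹)^m a b (a⁻¹ b)^m` if
`k = 2m + 1`. -/
def word (k : ℤ) : FreeGroup (Fin 2) :=
  (ga * gb⁻¹) ^ (k / 2) * (ga * gb) ^ (k % 2) * (ga⁻¹ * gb) ^ (k / 2)

/-- The relator `a w^n b⁻¹ w^(-n)`. -/
def relator (k n : ℤ) : FreeGroup (Fin 2) := ga * word k ^ n * gb⁻¹ * (word k ^ n)⁻¹

/-- The group `⟨a, b | a w_k^n = w_k^n b⟩` of the double twist knot `J(k, 2n)`. -/
abbrev KnotGroup (k n : ℤ) : Type := PresentedGroup ({relator k n} : Set (FreeGroup (Fin 2)))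

/-- The properties of a lift of the holonomy that are used: the meridian has trace `2`, the
representation is not abelian, and its image is torsion free. -/
def Admissible {k n : ℤ} (ρ : KnotGroup k n →* SL2) : Prop :=
  trace (ρ (PresentedGroup.of 0)).1 = 2 ∧
    ρ (PresentedGroup.of 0) * ρ (PresentedGroup.of 1) ≠
      ρ (PresentedGroup.of 1) * ρ (PresentedGroup.of 0) ∧
    ∀ g, IsOfFinOrder (ρ g) → ρ g = 1

/-- The matrix `t A` over `ℂ(t)`. -/
noncomputable def twist (A : SL2) : Mat := (RatFunc.X : RatFunc ℂ) • A.1.map (algebraMap ℂ _)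

/-- The Fox derivative of a word with respect to the generator `j`, the generator `i` being sent
to the matrix `M i`. -/
noncomputable def foxList (M : Fin 2 → Mat) (j : Fin 2) : List (Fin 2 × Bool) → Mat
  | [] => 0
  | (i, true) :: l => (if i = j then 1 else 0) + M i * foxList M j l
  | (i, false) :: l => (M i)⁻¹ * (foxList M j l - if i = j then 1 else 0)

/-- The invariant of Wada `det Φ(∂r/∂b) / det (Φ(a) - 1)`, where `Φ = ρ ⊗ φ` sends each
generator `x` to `t ρ(x)`. -/
noncomputable def wada {k n : ℤ} (ρ : KnotGroup k n →* SL2) : RatFunc ℂ :=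
  (foxList (fun i => twist (ρ (PresentedGroup.of i))) 1 (relator k n).toWord).det /
    (twist (ρ (PresentedGroup.of 0)) - 1).det

end Pool.Agent.P.MP_60bbe2_gt
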