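import Pool.Agent.P.MP_60bbe2_gt.Fox

/-! The first four coefficients of the expansion of a rational function at the origin. -/

namespace Pool.Agent.P.MP_60bbe2_gt

open Polynomial

/-- the inclusion of polynomials -/
noncomputable abbrev al : ℂ[X] →+* RatFunc ℂ := algebraMap ℂ[X] (RatFunc ℂ)

lemma al_X : al X = tt := RatFunc.algebraMap_X

lemma al_C (x : ℂ) : al (C x) = algebraMap ℂ (RatFunc ℂ) x := by
  rw [RatFunc.algebraMap_C]; rfl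

lemma al_inj : Function.Injective al := RatFunc.algebraMap_injective ℂ

/-- a cubic polynomial -/
noncomputable def jp (c0 c1 c2 c3 : ℂ) : ℂ[X] := C c0 + C c1 * X + C c2 * X ^ 2 + C c3 * X ^ 3

/-- `f / (t - 1) ^ 2` is a power of `t` times a series starting with the given coefficients -/
def Jet (f : RatFunc ℂ) (c0 c1 c2 c3 : ℂ) : Prop :=
  c0 ≠ 0 ∧ ∃ (e : ℤ) (N Dn : ℂ[X]), Dn.eval 0 = 1 ∧ f * al Dn = tt ^ e * al N ∧
    X ^ 4 ∣ N - (X - 1) ^ 2 * jp c0 c1 c2 c3 * Dn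

lemma exp_eq {p q : ℂ[X]} (hq : q.eval 0 ≠ 0) {e e' : ℤ} (h : tt ^ e * al p = tt ^ e' * al q) :
    e ≤ e' := by
  by_contra hlt
  obtain ⟨d, hd⟩ := Int.eq_ofNat_of_zero_le (a := e - e' - 1) (by omega)
  have he : e = e' + ((d + 1 : ℕ) : ℤ) := by push_cast; omega
  rw [he, zpow_add₀ tt_ne, mul_assoc, zpow_natCast] at h
  have h2 := mul_left_cancel₀ (zpow_ne_zero e' tt_ne) h
  rw [← al_X, ← map_pow, ← map_mul] at h2
  have h3 := congrArg (eval 0) (al_inj h2)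
  simp at h3
  exact hq h3.symm

lemma Jet.shift {f : RatFunc ℂ} {c0 c1 c2 c3 : ℂ} (h : Jet f c0 c1 c2 c3) (j : ℤ) :
    Jet (tt ^ j * f) c0 c1 c2 c3 := by
  obtain ⟨h0, e, N, Dn, h1, h2, h3⟩ := h
  exact ⟨h0, j + e, N, Dn, h1, by rw [mul_assoc, h2, zpow_add₀ tt_ne, mul_assoc], h3⟩

lemma Jet.unique {f : RatFunc ℂ} {c0 c1 c2 c3 d0 d1 d2 d3 : ℂ} (h : Jet f c0 c1 c2 c3)
    (h' : Jet f d0 d1 d2 d3) : c0 = d0 ∧ c1 = d1 ∧ c2 = d2 ∧ c3 = d3 := by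
  obtain ⟨h0, e, N, Dn, h1, h2, h3⟩ := h
  obtain ⟨h0', e', N', Dn', h1', h2', h3'⟩ := h'
  have ev : ∀ {N Dn : ℂ[X]} {c0 c1 c2 c3 : ℂ}, Dn.eval 0 = 1 →
      X ^ 4 ∣ N - (X - 1) ^ 2 * jp c0 c1 c2 c3 * Dn → N.eval 0 = c0 := by
    intro N Dn c0 c1 c2 c3 h1 ⟨g, hg⟩
    have := congrArg (eval 0) hg
    simp [jp, h1] at this
    linear_combination this
  have hN := ev h1 h3
  have hN' := ev h1' h3'
  have key : tt ^ e * al (N * Dn') = tt ^ e' * al (N' * Dn) := by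
    rw [map_mul, map_mul]
    linear_combination al Dn * h2' - al Dn' * h2
  have he : e = e' := le_antisymm (exp_eq (by simp [hN', h1, h0']) key)
    (exp_eq (by simp [hN, h1', h0]) key.symm)
  subst he
  have k2 := al_inj (mul_left_cancel₀ (zpow_ne_zero e tt_ne) key)
  have k3 : X ^ 4 ∣ ((X - 1) ^ 2 * Dn * Dn') * (jp c0 c1 c2 c3 - jp d0 d1 d2 d3) := by
    have : ((X - 1) ^ 2 * Dn * Dn') * (jp c0 c1 c2 c3 - jp d0 d1 d2 d3) =
        (N' - (X - 1) ^ 2 * jp d0 d1 d2 d3 * Dn') * Dn -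
          (N - (X - 1) ^ 2 * jp c0 c1 c2 c3 * Dn) * Dn' := by
      linear_combination k2
    rw [this]
    exact dvd_sub (h3'.mul_right _) (h3.mul_right _)
  have k4 : X ^ 4 ∣ jp c0 c1 c2 c3 - jp d0 d1 d2 d3 := by
    refine prime_X.pow_dvd_of_dvd_mul_left 4 ?_ k3
    rw [X_dvd_iff, coeff_zero_eq_eval_zero]
    simp [h1, h1']
  rw [X_pow_dvd_iff] at k4
  have a0 := k4 0 (by norm_num)
  have a1 := k4 1 (by norm_num)
  have a2 := k4 2 (by norm_num)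
  have a3 := k4 3 (by norm_num)
  simp [jp, coeff_X, coeff_C, coeff_X_pow, sub_eq_zero] at a0 a1 a2 a3
  exact ⟨a0, a1, a2, a3⟩

/-- the genus one shape -/
lemma jet_even {f : RatFunc ℂ} {A B : ℂ} (e : ℤ) (hB : B ≠ 0)
    (h : f = tt ^ e * ((tt - 1) ^ 2 * (algebraMap ℂ _ A * (tt - 1) ^ 2 +
      2 * algebraMap ℂ _ B * tt))) :
    (A ≠ 0 ∧ Jet f A (2 * B - 2 * A) A 0) ∨ (A = 0 ∧ Jet f (2 * B) 0 0 0) := by
  by_cases hA : A = 0
  · refine Or.inr ⟨hA, by simpa using hB, e + 1, (X - 1) ^ 2 * C (2 * B), 1, by simp, ?_,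
      by simp [jp]⟩
    rw [h, hA, zpow_add₀ tt_ne]
    simp only [map_mul, map_pow, map_sub, map_one, al_X, al_C, map_zero, map_ofNat, zpow_one]
    ring
  · refine Or.inl ⟨hA, hA, e, (X - 1) ^ 2 * jp A (2 * B - 2 * A) A 0, 1, by simp, ?_, by simp⟩
    rw [h, jp]
    simp only [map_mul, map_pow, map_sub, map_add, map_one, al_X, al_C, map_zero, map_ofNat]
    ring

/-- the higher genus shape -/
lemma jet_odd {f : RatFunc ℂ} {P l P' z : ℂ} (e : ℤ) (hP : P ≠ 0) (G : ℂ[X])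
    (h : f * al ((1 - C z * X ^ 2 + X ^ 4) ^ 2) = tt ^ e * al ((X - 1) ^ 2 *
      (1 - C z * X ^ 2 + X ^ 4) * (C P - 4 * C l * X + C P' * X ^ 2) + X ^ 4 * G)) :
    Jet f P (-4 * l) (P' + z * P) (-4 * l * z) := by
  refine ⟨hP, e, _, _, by simp, h, ?_⟩
  refine ⟨G - (X - 1) ^ 2 * (1 - C z * X ^ 2 + X ^ 4) * (jp P (-4 * l) (P' + z * P) (-4 * l * z)
    - C z * (C (P' + z * P) + C (-4 * l * z) * X)), ?_⟩
  simp only [jp, map_mul, map_add, map_neg, map_ofNat]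
  ring

end Pool.Agent.P.MP_60bbe2_gt
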