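import Pool.Agent.P.MP_60bbe2_gt.Normal
import Pool.Agent.P.MP_60bbe2_gt.Alg
import Pool.Agent.P.MP_60bbe2_gt.Jet

/-! Genus one two-bridge knots `J(2m, 2n)`. -/

namespace Pool.Agent.P.MP_60bbe2_gt

open Matrix

/-- constants in `ℂ(t)` -/
noncomputable abbrev ct : ℂ →+* RatFunc ℂ := algebraMap ℂ (RatFunc ℂ)

lemma io_mk {M : SL2} {a b c d : ℂ} (h : M.1 = !![a, b; c, d]) :
    io M = !![ct a, ct b; ct c, ct d] := by
  rw [io_apply, h]
  ext i j; fin_cases i <;> fin_cases j <;> simp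

lemma Cm_val (u : ℂ) : (A0 * (Bu u)⁻¹).1 = !![1 + u, 1; u, 1] := by
  rw [sl_mul, sl_inv, A0, Bu]
  ext i j; fin_cases i <;> fin_cases j <;> simp [Matrix.mul_apply, Fin.sum_univ_two]

lemma A0_val : A0.1 = !![1, 1; 0, 1] := rfl

lemma Bu_val (u : ℂ) : (Bu u).1 = !![1, 0; -u, 1] := rfl

lemma Cj_self (u : ℂ) : Cj (Gam u) u := by
  refine ⟨1, ?_⟩
  conv_rhs => rw [← Subgroup.map_id (Gam u)]
  congr 1
  ext x : 1
  simp

/-- data attached to a genus one knot -/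
def EvenData (Γ : Subgroup SL2) (f : RatFunc ℂ) : Prop :=
  ∃ (r s d : ℂ) (e : ℤ), r ≠ 0 ∧ s ≠ 0 ∧ d ^ 2 = 4 * r ^ 2 + 4 * s ^ 2 + r ^ 2 * s ^ 2 ∧
    r * s ≠ 8 ∧ Cj Γ (s ^ 2) ∧ Cj Γ (r ^ 2) ∧
    f = tt ^ e * ((tt - 1) ^ 2 * (ct ((d - 2 * s) * (d - 2 * r) / (r * s) ^ 3) * (tt - 1) ^ 2 +
      2 * ct (1 / (r * s)) * tt))

lemma EvenData.shift {Γ : Subgroup SL2} {f : RatFunc ℂ} (h : EvenData Γ f) (j : ℤ) :
    EvenData Γ (tt ^ j * f) := by
  obtain ⟨r, s, d, e, h1, h2, h3, h4, h5, h6, h7⟩ := h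
  exact ⟨r, s, d, j + e, h1, h2, h3, h4, h5, h6, by rw [h7, zpow_add₀ tt_ne, mul_assoc (tt ^ j)]⟩

section
variable {σ : F2 →* SL2} {D : F2 → Mat} {u : ℂ}

lemma sig_gc (ha : σ ga = A0) (hb : σ gb = Bu u) : σ gc = A0 * (Bu u)⁻¹ := by
  rw [gc, _root_.map_mul, _root_.map_inv, ha, hb]

lemma rel_Y (ha : σ ga = A0) (hb : σ gb = Bu u) {y : F2} (hr : σ (ga * y * gb⁻¹ * y⁻¹) = 1) :
    A0 * σ y = σ y * Bu u := by
  simp only [_root_.map_mul, _root_.map_inv, ha, hb] at hr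
  rw [mul_inv_eq_one, mul_inv_eq_iff_eq_mul] at hr
  exact hr

lemma Dx_val (hD : Der σ D) (hu : u ≠ 0) (ha : σ ga = A0) (hb : σ gb = Bu u) (m : ℤ) {a c : ℂ}
    (hX : (σ (gc ^ m)).1 = !![1 + u * a + u * c, a; u * a, 1 + u * c]) :
    Ph σ gc = !![1 + ct u, 1; ct u, 1] ∧ D gc = - !![1 + ct u, 1; ct u, 1] ∧
    Ph σ (gc ^ m) = !![1 + ct u * ct a + ct u * ct c, ct a; ct u * ct a, 1 + ct u * ct c] ∧
    D (gc ^ m) = - !![ct a + ct a * ct u + ct c * ct u, ct a + ct c;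
      ct a * ct u + ct c * ct u, ct a] := by
  have h1 : Ph σ gc = !![1 + ct u, 1; ct u, 1] := by
    rw [Ph_apply, deg_gc, zpow_zero, one_smul, sig_gc ha hb, io_mk (Cm_val u)]; simp
  have h2 : D gc = - !![1 + ct u, 1; ct u, 1] := by rw [← h1]; exact hD.dc
  have h3 : Ph σ (gc ^ m) =
      !![1 + ct u * ct a + ct u * ct c, ct a; ct u * ct a, 1 + ct u * ct c] := by
    rw [Ph_apply, deg_zpow, deg_gc, mul_zero, zpow_zero, one_smul, io_mk hX]; simp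
  refine ⟨h1, h2, h3, dx_alg _ _ _ (by simpa using hu) _ ?_⟩
  rw [← h2, ← h1, ← h3]
  exact hD.comm gc m

lemma Ph_ga (ha : σ ga = A0) : Ph σ ga = tt • !![1, 1; 0, 1] := by
  rw [Ph_apply, deg_ga, zpow_one, ha, io_mk A0_val]; simp

lemma swap_gen (X : SL2) (n : ℤ)
    (hX : X ∈ Gam u) (h : A0 * (X * A0⁻¹ * X⁻¹ * A0) ^ n = (X * A0⁻¹ * X⁻¹ * A0) ^ n * Bu u) :
    Gam u = Subgroup.closure {A0, X * A0 * X⁻¹} := by
  have hA : A0 ∈ Gam u := Subgroup.subset_closure (by simp)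
  apply le_antisymm
  · rw [Gam, Subgroup.closure_le]
    have a1 : A0 ∈ Subgroup.closure {A0, X * A0 * X⁻¹} := Subgroup.subset_closure (by simp)
    have a2 : X * A0 * X⁻¹ ∈ Subgroup.closure {A0, X * A0 * X⁻¹} :=
      Subgroup.subset_closure (by simp)
    have a3 : (X * A0⁻¹ * X⁻¹ * A0) ^ n ∈ Subgroup.closure {A0, X * A0 * X⁻¹} := by
      apply Subgroup.zpow_mem
      have : X * A0⁻¹ * X⁻¹ * A0 = (X * A0 * X⁻¹)⁻¹ * A0 := by group
      rw [this]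
      exact mul_mem (inv_mem a2) a1
    rintro x (rfl | rfl)
    · exact a1
    · have : Bu u = ((X * A0⁻¹ * X⁻¹ * A0) ^ n)⁻¹ * (A0 * (X * A0⁻¹ * X⁻¹ * A0) ^ n) := by
        rw [h, inv_mul_cancel_left]
      rw [this]
      exact mul_mem (inv_mem a3) (mul_mem a1 a3)
  · rw [Subgroup.closure_le]
    rintro x (rfl | rfl)
    · exact hA
    · exact mul_mem (mul_mem hX hA) (inv_mem hX)

lemma Cj_pair (X : SL2) (h : X.1 1 0 ≠ 0) :
    Cj (Subgroup.closure {A0, X * A0 * X⁻¹}) (X.1 1 0 ^ 2) := by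
  let T : SL2 := ⟨!![1, -X.1 0 0 / X.1 1 0; 0, 1], by simp [det_fin_two_of]⟩
  have hT : T.1 = !![1, -X.1 0 0 / X.1 1 0; 0, 1] := rfl
  have hd := sl_det X
  refine ⟨T, ?_⟩
  rw [MonoidHom.map_closure, Set.image_pair, Gam]
  have e1 : T * A0 * T⁻¹ = A0 := by
    rw [mul_inv_eq_iff_eq_mul]
    apply sl_ext
    rw [sl_mul, sl_mul, hT, A0_val]
    ext i j; fin_cases i <;> fin_cases j <;> simp [Matrix.mul_apply, Fin.sum_univ_two]
    ring
  have e2 : T * (X * A0 * X⁻¹) * T⁻¹ = Bu (X.1 1 0 ^ 2) := by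
    rw [mul_inv_eq_iff_eq_mul]
    apply sl_ext
    rw [sl_mul, sl_mul, sl_mul, sl_mul, sl_inv, hT, A0_val, Bu_val]
    ext i j; fin_cases i <;> fin_cases j <;> simp [Matrix.mul_apply, Fin.sum_univ_two]
    · linear_combination (norm := (field_simp; ring)) hd
    · linear_combination (norm := (field_simp; ring)) (-X.1 0 0 / X.1 1 0) * hd
    · ring
    · linear_combination (norm := (field_simp; ring)) hd
  simp only [MulEquiv.toMonoidHom_eq_coe, MonoidHom.coe_coe, MulAut.conj_apply, e1, e2]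

theorem even_core (hD : Der σ D) (hu : u ≠ 0) (ha : σ ga = A0) (hb : σ gb = Bu u) (m n : ℤ)
    (hr : σ (relator (2 * m) n) = 1) : EvenData (Gam u) (D (relator (2 * m) n)).det := by
  rw [relator, word_even] at hr ⊢
  have hAY := rel_Y ha hb hr
  obtain ⟨s, y, hs, rfl, hY⟩ := shapeY _ _ hAY
  have hc := sig_gc ha hb
  obtain ⟨a, c, R, hX⟩ := shapeX _ hu (σ (gc ^ m)) (by
    rw [_root_.map_zpow, hc]; exact Commute.zpow_self _ m)
  have hV : (σ (gc ^ m * ga⁻¹ * (gc ^ m)⁻¹)).1 =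
      !![1 + a*c*s^4 + a*s^2 + a^2*s^4, - 1 - a*c*s^4 - a*s^2 - a^2*s^2 - a^2*s^4;
        a^2*s^4, 1 - a*c*s^4 - a*s^2 - a^2*s^4] := by
    rw [_root_.map_mul, _root_.map_mul, _root_.map_inv, _root_.map_inv, sl_mul, sl_mul, sl_inv,
      sl_inv, ha, hX, A0_val]
    ext i j; fin_cases i <;> fin_cases j <;> simp [Matrix.mul_apply, Fin.sum_univ_two]
    · linear_combination (-s ^ 2) * R
    · linear_combination (s ^ 2) * R
    · ring
    · linear_combination (-s ^ 2) * R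
  have hW : (σ (gc ^ m * ga⁻¹ * (gc ^ m)⁻¹ * ga)).1 =
      !![1 + a*c*s^4 + a*s^2 + a^2*s^4, - (a^2*s^2); a^2*s^4, 1 - a*c*s^4 - a*s^2] := by
    rw [_root_.map_mul, sl_mul, hV, ha, A0_val]
    ext i j; fin_cases i <;> fin_cases j <;> simp [Matrix.mul_apply, Fin.sum_univ_two] <;> ring
  set w := gc ^ m * ga⁻¹ * (gc ^ m)⁻¹ * ga with hw
  have hY1 : σ (w ^ n) ≠ 1 := by
    intro h
    rw [h] at hY
    simpa using congrFun (congrFun hY 1) 1
  have ha0 : a ≠ 0 := by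
    rintro rfl
    apply hY1
    have : σ w = 1 := by
      apply sl_ext; rw [hW]
      ext i j; fin_cases i <;> fin_cases j <;> simp
    rw [_root_.map_zpow, this, _root_.one_zpow]
  have hn : n ≠ 0 := by rintro rfl; simp at hY1
  have hm : m ≠ 0 := by
    rintro rfl
    apply ha0
    simpa using (congrFun (congrFun hX 0) 1).symm
  have hy : y = (2 + s^2*a + 2*s^2*c)/(s*a) := by
    have h1 : σ w * σ (w ^ n) = σ (w ^ n) * σ w := by
      rw [← _root_.map_mul, ← _root_.map_mul, (Commute.self_zpow w n).eq]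
    have h2 := congrFun (congrFun (congrArg Subtype.val h1) 0) 1
    rw [sl_mul, sl_mul, hW, hY] at h2
    simp [Matrix.mul_apply, Fin.sum_univ_two] at h2
    field_simp at h2 ⊢
    apply mul_left_cancel₀ (mul_ne_zero ha0 (pow_ne_zero 2 hs))
    linear_combination h2
  subst hy
  obtain ⟨p1, p2, p3, p4⟩ := Dx_val hD hu ha hb m hX
  have dw : deg w = 0 := by
    rw [hw, deg_mul, deg_mul, deg_mul, deg_inv, deg_inv, deg_ga]; ring
  have q1 : Ph σ w = !![1 + ct a*ct c*ct s^4 + ct a*ct s^2 + ct a^2*ct s^4, - (ct a^2*ct s^2);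
      ct a^2*ct s^4, 1 - ct a*ct c*ct s^4 - ct a*ct s^2] := by
    rw [Ph_apply, dw, zpow_zero, one_smul, io_mk hW]; simp
  have q2 : Ph σ (w ^ n) = !![(2 + ct s^2*ct a + 2*ct s^2*ct c)/(ct s*ct a), -1/ct s; ct s, 0] := by
    rw [Ph_apply, deg_zpow, dw, mul_zero, zpow_zero, one_smul, io_mk hY]
    simp [map_ofNat]
  have q3 : Ph σ (gc ^ m * ga⁻¹ * (gc ^ m)⁻¹) = tt⁻¹ •
      !![1 + ct a*ct c*ct s^4 + ct a*ct s^2 + ct a^2*ct s^4,
        - 1 - ct a*ct c*ct s^4 - ct a*ct s^2 - ct a^2*ct s^2 - ct a^2*ct s^4;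
        ct a^2*ct s^4, 1 - ct a*ct c*ct s^4 - ct a*ct s^2 - ct a^2*ct s^4] := by
    have : deg (gc ^ m * ga⁻¹ * (gc ^ m)⁻¹) = -1 := by
      rw [deg_mul, deg_mul, deg_inv, deg_inv, deg_ga]; ring
    rw [Ph_apply, this, _root_.zpow_neg_one, io_mk hV]; simp
  have q4 := hD.comm w n
  rw [q1, q2, hw, hD.even, q3, p4, ← hw, map_pow] at q4
  have R' := congrArg ct R
  simp only [map_pow, map_add, _root_.map_mul, map_ofNat] at R'
  have key := even_alg tt (ct s) (ct a) (ct c) tt_ne (by simpa using hs) (by simpa using ha0) R'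
    _ q4
  have hX10 : (σ (gc ^ m)).1 1 0 = s ^ 2 * a := by rw [hX]; simp
  refine ⟨s ^ 2 * a, s, s * (2 + s^2*a + 2*s^2*c), -2, mul_ne_zero hu ha0, hs,
    by linear_combination (-4 * s ^ 4) * R, ?_, Cj_self _, ?_, ?_⟩
  · intro h8
    have n8 : ‖s ^ 2 * a‖ * ‖s‖ = 8 := by rw [← norm_mul, h8]; simp
    have g1 : 2 ≤ ‖2 + s ^ 2‖ → ‖s‖ ^ 2 ≤ ‖s ^ 2 * a‖ := by
      intro h
      have e : trace (σ gc).1 = 2 + s ^ 2 := by rw [hc, Cm_val]; simp; ring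
      have := grow (σ gc) (by rw [e]; exact h) m hm
      rw [← _root_.map_zpow, hX10, hc, Cm_val] at this
      simpa using this
    have g2 : 2 ≤ ‖2 + (s ^ 2 * a) ^ 2‖ → ‖s ^ 2 * a‖ ^ 2 ≤ ‖s‖ := by
      intro h
      have e : trace (σ w).1 = 2 + (s ^ 2 * a) ^ 2 := by rw [hW]; simp; ring
      have := grow (σ w) (by rw [e]; exact h) n hn
      rw [← _root_.map_zpow, hY, hW] at this
      have e2 : a ^ 2 * s ^ 4 = (s ^ 2 * a) ^ 2 := by ring
      rw [← norm_pow, ← e2]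
      simpa using this
    have lo : ∀ x : ℂ, 4 ≤ ‖x‖ ^ 2 → 2 ≤ ‖2 + x ^ 2‖ := by
      intro x hx
      have := norm_sub_norm_le (x ^ 2) (-2)
      rw [norm_pow, sub_neg_eq_add, add_comm] at this
      simp at this
      linarith
    have l1 := lo s
    have l2 := lo (s ^ 2 * a)
    have hp := norm_nonneg (s ^ 2 * a)
    have hq := norm_nonneg s
    generalize ‖s ^ 2 * a‖ = p at n8 g1 g2 l2 hp
    generalize ‖s‖ = q at n8 g1 g2 l1 hq
    rcases le_total p q with h | h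
    · have k1 : 8 ≤ q ^ 2 := by nlinarith
      have k2 := g1 (l1 (by linarith))
      nlinarith
    · have k1 : 8 ≤ p ^ 2 := by nlinarith
      have k2 := g2 (l2 (by linarith))
      nlinarith
  · have hXm : σ (gc ^ m) ∈ Gam (s ^ 2) := by
      rw [_root_.map_zpow, hc]
      exact Subgroup.zpow_mem _ (mul_mem (Subgroup.subset_closure (by simp))
        (inv_mem (Subgroup.subset_closure (by simp)))) _
    rw [swap_gen (σ (gc ^ m)) n hXm (by
      simpa only [hw, _root_.map_zpow, _root_.map_mul, _root_.map_inv, ha] using hAY), ← hX10]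
    exact Cj_pair _ (by rw [hX10]; exact mul_ne_zero hu ha0)
  · rw [hD.rel _ hr, Ph_ga ha, q2, key]
    simp only [map_pow, map_add, map_sub, _root_.map_mul, map_ofNat, map_div₀, _root_.map_one]
    rw [_root_.zpow_neg, inv_pow]; rfl

end

end Pool.Agent.P.MP_60bbe2_gt
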