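import Pool.Agent.P.MP_60bbe2_gt.Defs

/-! Fox calculus with matrix coefficients. -/

namespace Pool.Agent.P.MP_60bbe2_gt

open Matrix FreeGroup

/-- the free group on two letters -/
abbrev F2 : Type := FreeGroup (Fin 2)

/-- the variable -/
noncomputable abbrev tt : RatFunc ℂ := RatFunc.X

lemma tt_ne : tt ≠ 0 := RatFunc.X_ne_zero

/-- constants -/
noncomputable def io : SL2 →* Mat where
  toFun A := A.1.map (algebraMap ℂ _)
  map_one' := by simp
  map_mul' A B := by simp [Matrix.map_mul]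

lemma io_apply (A : SL2) : io A = A.1.map (algebraMap ℂ _) := rfl

lemma det_io (A : SL2) : (io A).det = 1 := by
  have := RingHom.map_det (algebraMap ℂ (RatFunc ℂ)) A.1
  rw [A.det_coe, _root_.map_one] at this
  exact this.symm

/-- exponent sum -/
def dg : F2 →* Multiplicative ℤ := FreeGroup.lift fun _ => Multiplicative.ofAdd 1

/-- exponent sum, additively -/
def deg (g : F2) : ℤ := (dg g).toAdd

lemma deg_mul (g h : F2) : deg (g * h) = deg g + deg h := by simp [deg]
lemma deg_one : deg 1 = 0 := by simp [deg]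
lemma deg_inv (g : F2) : deg g⁻¹ = - deg g := by simp [deg]
lemma deg_zpow (g : F2) (n : ℤ) : deg (g ^ n) = n * deg g := by simp [deg]
lemma deg_of (i : Fin 2) : deg (of i) = 1 := by simp [deg, dg]
lemma deg_ga : deg ga = 1 := deg_of 0
lemma deg_gb : deg gb = 1 := deg_of 1

/-- the twisted representation -/
noncomputable def Ph (σ : F2 →* SL2) : F2 →* Mat where
  toFun g := tt ^ deg g • io (σ g)
  map_one' := by simp [deg_one]
  map_mul' g h := by
    rw [deg_mul, zpow_add₀ tt_ne, _root_.map_mul, _root_.map_mul, smul_mul_smul_comm]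

lemma Ph_apply (σ : F2 →* SL2) (g : F2) : Ph σ g = tt ^ deg g • io (σ g) := rfl

lemma Ph_of (σ : F2 →* SL2) (i : Fin 2) : Ph σ (of i) = twist (σ (of i)) := by
  rw [Ph_apply, deg_of, zpow_one]; rfl

lemma Ph_inv (σ : F2 →* SL2) (g : F2) : Ph σ g⁻¹ = (Ph σ g)⁻¹ := by
  symm
  apply Matrix.inv_eq_left_inv
  rw [← _root_.map_mul, inv_mul_cancel, _root_.map_one]

lemma Ph_inv_mul (σ : F2 →* SL2) (g : F2) : Ph σ g⁻¹ * Ph σ g = 1 := by
  rw [← _root_.map_mul, inv_mul_cancel, _root_.map_one]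

lemma Ph_mul_inv (σ : F2 →* SL2) (g : F2) : Ph σ g * Ph σ g⁻¹ = 1 := by
  rw [← _root_.map_mul, mul_inv_cancel, _root_.map_one]

section fox
variable (σ : F2 →* SL2) (j : Fin 2)

lemma foxList_append (l l' : List (Fin 2 × Bool)) :
    foxList (fun i => twist (σ (of i))) j (l ++ l') =
      foxList (fun i => twist (σ (of i))) j l +
        Ph σ (mk l) * foxList (fun i => twist (σ (of i))) j l' := by
  induction l with
  | nil => simp [foxList, ← one_eq_mk]
  | cons s l ih =>
    obtain ⟨i, b⟩ := s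
    cases b
    · have : mk ((i, false) :: l) = (of i)⁻¹ * mk l := rfl
      rw [List.cons_append, foxList, foxList, ih, this, _root_.map_mul, Ph_inv, Ph_of]
      noncomm_ring
    · have : mk ((i, true) :: l) = of i * mk l := rfl
      rw [List.cons_append, foxList, foxList, ih, this, _root_.map_mul, Ph_of]
      noncomm_ring

lemma foxList_red {l l' : List (Fin 2 × Bool)} (h : Red l l') :
    foxList (fun i => twist (σ (of i))) j l = foxList (fun i => twist (σ (of i))) j l' := by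
  induction h with
  | refl => rfl
  | tail _ h ih =>
    rw [ih]
    rcases h with @⟨l₁, l₂, x, b⟩
    rw [foxList_append, foxList_append]
    congr 2
    have h1 := Ph_inv_mul σ (of x)
    have h2 := Ph_mul_inv σ (of x)
    rw [Ph_inv, Ph_of] at h1 h2
    cases b
    · simp only [foxList, Bool.not_false]
      rw [add_sub_cancel_left, ← mul_assoc, h1, one_mul]
    · simp only [foxList, Bool.not_true]
      rw [← mul_assoc, h2, one_mul, add_sub_cancel]

/-- the Fox derivative on the free group -/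
noncomputable def fox (g : F2) : Mat := foxList (fun i => twist (σ (of i))) j g.toWord

lemma fox_mk (l : List (Fin 2 × Bool)) :
    fox σ j (mk l) = foxList (fun i => twist (σ (of i))) j l := by
  rw [fox, toWord_mk, ← foxList_red σ j reduce.red]

lemma fox_mul (a b : F2) : fox σ j (a * b) = fox σ j a + Ph σ a * fox σ j b := by
  obtain ⟨a⟩ := a
  obtain ⟨b⟩ := b
  change fox σ j (mk a * mk b) = fox σ j (mk a) + Ph σ (mk a) * fox σ j (mk b)
  rw [mul_mk, fox_mk, fox_mk, fox_mk, foxList_append]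

lemma fox_of (i : Fin 2) : fox σ j (of i) = if i = j then 1 else 0 := by
  change fox σ j (mk [(i, true)]) = _
  rw [fox_mk]; simp [foxList]

end fox

/-- `D` is the derivation with `D a = 0`, `D b = 1`. -/
structure Der (σ : F2 →* SL2) (D : F2 → Mat) : Prop where
  mul : ∀ g h, D (g * h) = D g + Ph σ g * D h
  da : D ga = 0
  db : D gb = 1

lemma der_fox (σ : F2 →* SL2) : Der σ (fox σ 1) :=
  ⟨fox_mul σ 1, by rw [ga, fox_of]; simp, by rw [gb, fox_of]; simp⟩

namespace Der
variable {σ : F2 →* SL2} {D : F2 → Mat} (h : Der σ D)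
include h

lemma one : D 1 = 0 := by
  have := h.mul 1 1
  rw [mul_one, _root_.map_one, one_mul] at this
  exact left_eq_add.1 this

lemma inv (g : F2) : D g⁻¹ = - (Ph σ g⁻¹ * D g) := by
  have := h.mul g⁻¹ g
  rw [inv_mul_cancel, h.one] at this
  exact eq_neg_of_add_eq_zero_left this.symm

lemma comm (g : F2) (n : ℤ) : (Ph σ g - 1) * D (g ^ n) = (Ph σ (g ^ n) - 1) * D g := by
  have h1 := h.mul g (g ^ n)
  have h2 := h.mul (g ^ n) g
  rw [(Commute.self_zpow g n).eq, h2] at h1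
  rw [sub_mul, sub_mul, one_mul, one_mul]
  exact sub_eq_sub_iff_add_eq_add.2 (by rw [add_comm, ← h1, add_comm])

lemma rel (y : F2) (hy : σ (ga * y * gb⁻¹ * y⁻¹) = 1) :
    D (ga * y * gb⁻¹ * y⁻¹) = (Ph σ ga - 1) * D y - Ph σ y := by
  have e1 : Ph σ (ga * y * gb⁻¹ * y⁻¹) = 1 := by
    rw [Ph_apply, hy, deg_mul, deg_mul, deg_mul, deg_inv, deg_inv, deg_ga, deg_gb]
    simp
  have e2 : Ph σ (ga * y * gb⁻¹) = Ph σ y := by
    have : ga * y * gb⁻¹ = (ga * y * gb⁻¹ * y⁻¹) * y := by group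
    rw [this, _root_.map_mul, e1, one_mul]
  rw [h.mul, h.mul, h.mul, h.inv, h.inv, h.da, h.db, mul_neg, mul_neg, ← mul_assoc, ← mul_assoc,
    ← _root_.map_mul, ← _root_.map_mul, e1, e2]
  noncomm_ring

lemma conj_rel (r x : F2) (hx : D x = 0) :
    D (x * r * x⁻¹) = Ph σ x * D r := by
  rw [h.mul, h.mul, h.inv, hx]; simp

lemma dc : D (ga * gb⁻¹) = - Ph σ (ga * gb⁻¹) := by
  rw [h.mul, h.inv, h.da, h.db, _root_.map_mul]; simp

lemma even (x : F2) :
    D (x * ga⁻¹ * x⁻¹ * ga) = D x - Ph σ (x * ga⁻¹ * x⁻¹) * D x := by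
  rw [h.mul, h.mul, h.mul, h.inv, h.inv, h.da, mul_neg, mul_neg, ← mul_assoc, ← mul_assoc,
    ← _root_.map_mul, ← _root_.map_mul]
  noncomm_ring

lemma odd (x x' : F2) :
    D (x * ga * x'⁻¹ * ga) = D x - Ph σ (x * ga * x'⁻¹) * D x' := by
  rw [h.mul, h.mul, h.mul, h.inv, h.da, mul_neg, ← mul_assoc, ← _root_.map_mul]
  noncomm_ring

lemma conj (g : SL2) :
    Der ((MulAut.conj g).toMonoidHom.comp σ) fun w => io g * D w * io g⁻¹ := by
  have e : io g⁻¹ * io g = 1 := by rw [← _root_.map_mul, inv_mul_cancel, _root_.map_one]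
  have e' : io g * io g⁻¹ = 1 := by rw [← _root_.map_mul, mul_inv_cancel, _root_.map_one]
  refine ⟨fun a b => ?_, by rw [h.da]; simp, by rw [h.db, mul_one, e']⟩
  have : Ph ((MulAut.conj g).toMonoidHom.comp σ) a = io g * Ph σ a * io g⁻¹ := by
    simp [Ph_apply]
  rw [h.mul, this]
  calc _ = io g * D a * io g⁻¹ + io g * Ph σ a * (io g⁻¹ * io g) * D b * io g⁻¹ := by
        rw [e]; noncomm_ring
    _ = _ := by noncomm_ring

end Der

/-- the element `a b⁻¹` -/
def gc : F2 := ga * gb⁻¹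

lemma gb_eq : gb = gc⁻¹ * ga := by rw [gc]; group

lemma deg_gc : deg gc = 0 := by rw [gc, deg_mul, deg_inv, deg_ga, deg_gb]; rfl

lemma word_even (m : ℤ) : word (2 * m) = gc ^ m * ga⁻¹ * (gc ^ m)⁻¹ * ga := by
  have e1 : 2 * m / 2 = m := by omega
  have e2 : 2 * m % 2 = 0 := by omega
  have e3 : ga⁻¹ * gb = ga⁻¹ * (ga * gb⁻¹)⁻¹ * ga⁻¹⁻¹ := by group
  rw [word, e1, e2, e3, conj_zpow, _root_.inv_zpow, ← gc]; group

lemma word_odd (m : ℤ) : word (2 * m + 1) = gc ^ m * ga * (gc ^ m * gc)⁻¹ * ga := by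
  have e1 : (2 * m + 1) / 2 = m := by omega
  have e2 : (2 * m + 1) % 2 = 1 := by omega
  have e3 : ga⁻¹ * gb = ga⁻¹ * (ga * gb⁻¹)⁻¹ * ga⁻¹⁻¹ := by group
  rw [word, e1, e2, e3, conj_zpow, _root_.inv_zpow, ← gc, gb_eq]; group

lemma relator_one (m : ℤ) : relator (2 * m + 1) 1 = ga * relator (2 * m) (-1) * ga⁻¹ := by
  rw [relator, relator, word_odd, word_even, gb_eq]; group

lemma relator_neg_one (m : ℤ) :
    relator (2 * m + 1) (-1) = ga⁻¹ * relator (2 * (m + 1)) 1 * ga⁻¹⁻¹ := by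
  rw [relator, relator, word_odd, word_even, gb_eq]; group

end Pool.Agent.P.MP_60bbe2_gt
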