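import Pool.Agent.P.MP_60bbe2_gt.Odd

/-! The invariant of Wada determines the image up to conjugacy. -/

namespace Pool.Agent.P.MP_60bbe2_gt

open Matrix

lemma surface {r s d r' s' d' : ℂ} (hr : r ≠ 0) (hs : s ≠ 0)
    (h : d ^ 2 = 4 * r ^ 2 + 4 * s ^ 2 + r ^ 2 * s ^ 2)
    (h' : d' ^ 2 = 4 * r' ^ 2 + 4 * s' ^ 2 + r' ^ 2 * s' ^ 2) (h8 : r * s ≠ 8)
    (e1 : r * s = r' * s') (e2 : (d - 2 * s) * (d - 2 * r) = (d' - 2 * s') * (d' - 2 * r')) :
    s ^ 2 = s' ^ 2 ∨ s ^ 2 = r' ^ 2 := by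
  have a1 : (d - 2 * (r + s)) * (d + 2 * (r + s)) = r * s * (r * s - 8) := by
    linear_combination h
  have a2 : (d' - 2 * (r' + s')) * (d' + 2 * (r' + s')) = r * s * (r * s - 8) := by
    rw [e1]; linear_combination h'
  have a3 : (d - 2 * (r + s)) ^ 2 = (d' - 2 * (r' + s')) ^ 2 := by
    linear_combination 2 * e2 - h + h' - (r * s + r' * s') * e1
  have a4 : d - 2 * (r + s) ≠ 0 := by
    intro h0
    rw [h0, zero_mul] at a1
    exact mul_ne_zero (mul_ne_zero hr hs) (sub_ne_zero.2 h8) a1.symm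
  have a5 : (r + s) ^ 2 = (r' + s') ^ 2 := by
    rcases sq_eq_sq_iff_eq_or_eq_neg.1 a3 with b | b
    · have : d + 2 * (r + s) = d' + 2 * (r' + s') := by
        apply mul_left_cancel₀ a4
        rw [a1, b, a2]
      have : r + s = r' + s' := by linear_combination (this - b) / 4
      rw [this]
    · have : d + 2 * (r + s) = -(d' + 2 * (r' + s')) := by
        apply mul_left_cancel₀ a4
        rw [a1, b, neg_mul_neg, a2]
      have : r + s = -(r' + s') := by linear_combination (this - b) / 4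
      rw [this, neg_sq]
  have a6 : (s ^ 2 - s' ^ 2) * (s ^ 2 - r' ^ 2) = 0 := by
    linear_combination s ^ 2 * a5 - (2 * s ^ 2 + r * s + r' * s') * e1
  rcases mul_eq_zero.1 a6 with b | b
  · exact Or.inl (sub_eq_zero.1 b)
  · exact Or.inr (sub_eq_zero.1 b)

lemma even_even {Γ Γ' : Subgroup SL2} {f : RatFunc ℂ} (h : EvenData Γ f) (h' : EvenData Γ' f) :
    ∃ u, Cj Γ u ∧ Cj Γ' u := by
  obtain ⟨r, s, d, e, h1, h2, h3, h4, h5, h6, h7⟩ := h
  obtain ⟨r', s', d', e', h1', h2', h3', h4', h5', h6', h7'⟩ := h'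
  have key : (d - 2 * s) * (d - 2 * r) / (r * s) ^ 3 =
      (d' - 2 * s') * (d' - 2 * r') / (r' * s') ^ 3 ∧ 1 / (r * s) = 1 / (r' * s') := by
    rcases jet_even e (one_div_ne_zero (mul_ne_zero h1 h2)) h7 with ⟨a, j⟩ | ⟨a, j⟩ <;>
      rcases jet_even e' (one_div_ne_zero (mul_ne_zero h1' h2')) h7' with ⟨a', j'⟩ | ⟨a', j'⟩ <;>
      obtain ⟨b0, b1, b2, -⟩ := j.unique j'
    · exact ⟨b0, by linear_combination b1 / 2 + b0⟩
    · exact absurd b2 a
    · exact absurd b2.symm a'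
    · exact ⟨by rw [a, a'], by linear_combination b0 / 2⟩
  have e1 : r * s = r' * s' := by
    have := key.2
    rwa [one_div, one_div, _root_.inv_inj] at this
  have e2 := key.1
  rw [← e1, div_left_inj' (pow_ne_zero _ (mul_ne_zero h1 h2))] at e2
  rcases surface h1 h2 h3 h3' h4 e1 e2 with b | b
  · exact ⟨_, h5, b ▸ h5'⟩
  · exact ⟨_, h5, b ▸ h6'⟩

lemma even_odd {Γ Γ' : Subgroup SL2} {f : RatFunc ℂ} (h : EvenData Γ f) (h' : OddData Γ' f) :
    False := by
  obtain ⟨r, s, d, e, h1, h2, h3, h4, h5, h6, h7⟩ := h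
  obtain ⟨u, l, z, P, P', k1, k2, k3, k4, j'⟩ := h'
  rcases jet_even e (one_div_ne_zero (mul_ne_zero h1 h2)) h7 with ⟨a, j⟩ | ⟨a, j⟩ <;>
    obtain ⟨-, -, -, b⟩ := j.unique j' <;>
    exact mul_ne_zero (mul_ne_zero (by norm_num) k1) k2 b.symm

lemma odd_odd {Γ Γ' : Subgroup SL2} {f : RatFunc ℂ} (h : OddData Γ f) (h' : OddData Γ' f) :
    ∃ u, Cj Γ u ∧ Cj Γ' u := by
  obtain ⟨u, l, z, P, Q, k1, k2, k3, k4, j⟩ := h
  obtain ⟨u', l', z', P', Q', k1', k2', k3', k4', j'⟩ := h'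
  obtain ⟨b0, b1, b2, b3⟩ := j.unique j'
  obtain rfl : l = l' := by linear_combination -b1 / 4
  subst b0
  obtain rfl : z = z' := mul_left_cancel₀ (mul_ne_zero (by norm_num) k1) b3
  obtain rfl : Q = Q' := by linear_combination b2
  obtain rfl : u = u' := by
    apply mul_left_cancel₀ k1
    linear_combination k3' - k3
  exact ⟨u, k4, k4'⟩

section
variable {σ : F2 →* SL2} {D : F2 → Mat} {u : ℂ}

lemma det_Ph (g : F2) : (Ph σ g).det = tt ^ (2 * deg g) := by
  rw [Ph_apply, det_smul, det_io, Fintype.card_fin, mul_one, mul_comm, _root_.zpow_mul, zpow_ofNat]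

theorem core (hD : Der σ D) (hu : u ≠ 0) (ha : σ ga = A0) (hb : σ gb = Bu u) (k n : ℤ)
    (htf : ∀ g, trace (σ g).1 ≠ 0) (hr : σ (relator k n) = 1) :
    EvenData (Gam u) (D (relator k n)).det ∨ OddData (Gam u) (D (relator k n)).det := by
  have cj : ∀ x r : F2, σ (x * r * x⁻¹) = 1 → σ r = 1 := by
    intro x r h
    simpa only [_root_.map_mul, _root_.map_inv, conj_eq_one_iff] using h
  obtain ⟨m, rfl | rfl⟩ := Int.even_or_odd' k
  · exact Or.inl (even_core hD hu ha hb m n hr)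
  · by_cases hn : 2 ≤ n ∨ n ≤ -2
    · exact Or.inr (odd_core hD hu ha hb m n hn htf hr)
    · left
      obtain rfl | rfl | rfl : n = 0 ∨ n = 1 ∨ n = -1 := by omega
      · exfalso
        obtain ⟨s, y, -, -, hY⟩ := shapeY _ _ (rel_Y ha hb hr)
        simpa using congrFun (congrFun hY 1) 1
      · rw [relator_one] at hr ⊢
        rw [hD.conj_rel _ _ hD.da, det_mul, det_Ph]
        exact (even_core hD hu ha hb m (-1) (cj _ _ hr)).shift _
      · rw [relator_neg_one] at hr ⊢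
        rw [hD.conj_rel _ _ (by rw [hD.inv, hD.da]; simp), det_mul, det_Ph]
        exact (even_core hD hu ha hb (m + 1) 1 (cj _ _ hr)).shift _

end

lemma EvenData.of_conj {Γ : Subgroup SL2} {f : RatFunc ℂ} (g : SL2)
    (h : EvenData (Γ.map (MulAut.conj g).toMonoidHom) f) : EvenData Γ f := by
  obtain ⟨r, s, d, e, h1, h2, h3, h4, h5, h6, h7⟩ := h
  exact ⟨r, s, d, e, h1, h2, h3, h4, h5.of_conj g, h6.of_conj g, h7⟩

lemma OddData.of_conj {Γ : Subgroup SL2} {f : RatFunc ℂ} (g : SL2)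
    (h : OddData (Γ.map (MulAut.conj g).toMonoidHom) f) : OddData Γ f := by
  obtain ⟨u, l, z, P, Q, k1, k2, k3, k4, j⟩ := h
  exact ⟨u, l, z, P, Q, k1, k2, k3, k4.of_conj g, j⟩

lemma OddData.shift {Γ : Subgroup SL2} {f : RatFunc ℂ} (h : OddData Γ f) (j : ℤ) :
    OddData Γ (tt ^ j * f) := by
  obtain ⟨u, l, z, P, Q, k1, k2, k3, k4, hj⟩ := h
  exact ⟨u, l, z, P, Q, k1, k2, k3, k4, hj.shift j⟩

lemma trace_conj (g A : SL2) : trace (g * A * g⁻¹).1 = trace A.1 := by
  rw [sl_mul, trace_mul_comm, ← sl_mul, inv_mul_cancel_left]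

theorem data {k n : ℤ} (ρ : KnotGroup k n →* SL2) (h : Admissible ρ) :
    EvenData ρ.range ((tt - 1) ^ 2 * wada ρ) ∨ OddData ρ.range ((tt - 1) ^ 2 * wada ρ) := by
  obtain ⟨h1, h2, h3⟩ := h
  let σ : F2 →* SL2 := ρ.comp (PresentedGroup.mk _)
  have hr : σ (relator k n) = 1 := by
    have : PresentedGroup.mk {relator k n} (relator k n) = 1 :=
      PresentedGroup.one_of_mem (Set.mem_singleton _)
    simp only [σ, MonoidHom.comp_apply, this, _root_.map_one]
  have ha : σ ga = ρ (PresentedGroup.of 0) := rfl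
  have hb : σ gb = ρ (PresentedGroup.of 1) := rfl
  have hrange : ρ.range = σ.range := by
    rw [MonoidHom.range_comp, MonoidHom.range_eq_top.2 (PresentedGroup.mk_surjective _),
      MonoidHom.range_eq_map]
  have tb : trace (σ gb).1 = 2 := by
    have : σ gb = (σ (word k ^ n))⁻¹ * σ ga * (σ (word k ^ n))⁻¹⁻¹ := by
      simp only [relator, _root_.map_mul, _root_.map_inv] at hr
      rw [mul_inv_eq_one, mul_inv_eq_iff_eq_mul] at hr
      rw [inv_inv, mul_assoc, hr, inv_mul_cancel_left]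
    rw [this, trace_conj, ha, h1]
  obtain ⟨g, u, hu, e1, e2⟩ := normal_form (σ ga) (σ gb) h1 tb h2
  have hf : (tt - 1) ^ 2 * wada ρ = (io g * fox σ 1 (relator k n) * io g⁻¹).det := by
    have d1 : (twist (ρ (PresentedGroup.of 0)) - 1).det = (tt - 1) ^ 2 := by
      change (tt • io (ρ (PresentedGroup.of 0)) - 1).det = _
      rw [det_smul_sub, det_io, trace_io, h1, map_ofNat]; ring
    rw [wada, d1, det_mul, det_mul, det_io, det_io, one_mul, mul_one,
      mul_div_cancel₀ _ (pow_ne_zero _ (sub_ne_zero.2 tt_ne_one))]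
    rfl
  have hc := core ((der_fox σ).conj g) hu e1 e2 k n (fun x hx => by
    change trace (g * σ x * g⁻¹).1 = 0 at hx
    rw [trace_conj] at hx
    have := h3 _ (finOrder_of_trace _ hx)
    change σ x = 1 at this
    rw [this] at hx
    simp at hx) (by rw [MonoidHom.comp_apply, hr, _root_.map_one])
  rw [← range_eq (σ := (MulAut.conj g).toMonoidHom.comp σ) e1 e2, MonoidHom.range_comp,
    ← hrange] at hc
  rw [hf]
  exact hc.imp (EvenData.of_conj g) (OddData.of_conj g)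

theorem main {k n k' n' : ℤ} (ρ : KnotGroup k n →* SL2) (ρ' : KnotGroup k' n' →* SL2)
    (h : Admissible ρ) (h' : Admissible ρ') (j : ℤ) (e : wada ρ = RatFunc.X ^ j * wada ρ') :
    ∃ g : SL2, ρ'.range = ρ.range.map (MulAut.conj g).toMonoidHom := by
  have d := data ρ h
  have d' := (data ρ' h').imp (fun x => x.shift j) (fun x => x.shift j)
  rw [← mul_left_comm, ← e] at d'
  have : ∃ u, Cj ρ.range u ∧ Cj ρ'.range u := by
    rcases d with d | d <;> rcases d' with d' | d'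
    · exact even_even d d'
    · exact (even_odd d d').elim
    · exact (even_odd d' d).elim
    · exact odd_odd d d'
  obtain ⟨u, a, b⟩ := this
  exact a.trans_conj b

end Pool.Agent.P.MP_60bbe2_gt
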