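import Pool.Agent.P.MP_60bbe2_gt.Fox

/-! Normal form of a pair of parabolic matrices, and elementary facts on powers in `SL(2, ℂ)`. -/

namespace Pool.Agent.P.MP_60bbe2_gt

open Matrix

/-- the first standard parabolic -/
def A0 : SL2 := ⟨!![1, 1; 0, 1], by simp [det_fin_two_of]⟩

/-- the second standard parabolic -/
def Bu (u : ℂ) : SL2 := ⟨!![1, 0; -u, 1], by simp [det_fin_two_of]⟩

/-- the group they generate -/
def Gam (u : ℂ) : Subgroup SL2 := Subgroup.closure {A0, Bu u}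

/-- `Γ` is conjugate to the standard group with parameter `u` -/
def Cj (Γ : Subgroup SL2) (u : ℂ) : Prop :=
  ∃ g : SL2, Γ.map (MulAut.conj g).toMonoidHom = Gam u

lemma sl_ext {A B : SL2} (h : A.1 = B.1) : A = B := Subtype.ext h

lemma sl_mul (A B : SL2) : (A * B).1 = A.1 * B.1 := rfl

lemma sl_one : (1 : SL2).1 = 1 := rfl

lemma sl_inv (A : SL2) : (A⁻¹).1 = !![A.1 1 1, -A.1 0 1; -A.1 1 0, A.1 0 0] := by
  rw [Matrix.SpecialLinearGroup.coe_inv, adjugate_fin_two]

lemma sl_det (A : SL2) : A.1 0 0 * A.1 1 1 - A.1 0 1 * A.1 1 0 = 1 := by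
  have := A.det_coe
  rwa [det_fin_two] at this

lemma par (A : SL2) (hA : trace A.1 = 2) :
    ∃ x y : ℂ, A.1 = !![1 - x * y, x ^ 2; -y ^ 2, 1 + x * y] := by
  obtain ⟨x, hx⟩ := IsAlgClosed.exists_pow_nat_eq (A.1 0 1) (n := 2) two_pos
  obtain ⟨y, hy⟩ := IsAlgClosed.exists_pow_nat_eq (-A.1 1 0) (n := 2) two_pos
  have hd := sl_det A
  rw [trace_fin_two] at hA
  have h : (x * y - (1 - A.1 0 0)) * (x * y + (1 - A.1 0 0)) = 0 := by
    linear_combination y ^ 2 * hx + A.1 0 1 * hy + hd - A.1 0 0 * hA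
  rcases mul_eq_zero.1 h with h | h
  · refine ⟨x, y, ?_⟩
    ext i j; fin_cases i <;> fin_cases j <;> simp
    · linear_combination h
    · exact hx.symm
    · linear_combination hy
    · linear_combination hA - h
  · refine ⟨x, -y, ?_⟩
    ext i j; fin_cases i <;> fin_cases j <;> simp
    · linear_combination -h
    · exact hx.symm
    · linear_combination hy
    · linear_combination hA + h

lemma normal_form (A B : SL2) (hA : trace A.1 = 2) (hB : trace B.1 = 2) (h : A * B ≠ B * A) :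
    ∃ (g : SL2) (u : ℂ), u ≠ 0 ∧ g * A * g⁻¹ = A0 ∧ g * B * g⁻¹ = Bu u := by
  obtain ⟨x, y, hxy⟩ := par A hA
  obtain ⟨p, q, hpq⟩ := par B hB
  have hd : x * q - y * p ≠ 0 := by
    intro h0
    apply h
    apply sl_ext
    rw [sl_mul, sl_mul, hxy, hpq]
    ext i j; fin_cases i <;> fin_cases j <;> simp [Matrix.mul_apply, Fin.sum_univ_two]
    · linear_combination (-(x * q) - y * p) * h0
    · linear_combination (2 * x * p) * h0
    · linear_combination (-2 * y * q) * h0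
    · linear_combination (x * q + y * p) * h0
  let M : SL2 := ⟨!![x, p / (x * q - y * p); y, q / (x * q - y * p)], by
    rw [det_fin_two_of]; field_simp⟩
  have hM : M.1 = !![x, p / (x * q - y * p); y, q / (x * q - y * p)] := rfl
  refine ⟨M⁻¹, (x * q - y * p) ^ 2, pow_ne_zero _ hd, ?_, ?_⟩
  · have : A * M = M * A0 := by
      apply sl_ext
      rw [sl_mul, sl_mul, hxy, hM, A0]
      ext i j; fin_cases i <;> fin_cases j <;> simp [Matrix.mul_apply, Fin.sum_univ_two] <;>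
        field_simp <;> ring
    rw [inv_inv, mul_assoc, this]; group
  · have : B * M = M * Bu ((x * q - y * p) ^ 2) := by
      apply sl_ext
      rw [sl_mul, sl_mul, hpq, hM, Bu]
      ext i j; fin_cases i <;> fin_cases j <;> simp [Matrix.mul_apply, Fin.sum_univ_two] <;>
        field_simp <;> ring
    rw [inv_inv, mul_assoc, this]; group

lemma Cj.trans_conj {Γ Γ' : Subgroup SL2} {u : ℂ} (h : Cj Γ u) (h' : Cj Γ' u) :
    ∃ g : SL2, Γ' = Γ.map (MulAut.conj g).toMonoidHom := by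
  obtain ⟨g, hg⟩ := h
  obtain ⟨g', hg'⟩ := h'
  refine ⟨g'⁻¹ * g, ?_⟩
  have : Γ' = (Γ'.map (MulAut.conj g').toMonoidHom).map (MulAut.conj g'⁻¹).toMonoidHom := by
    rw [Subgroup.map_map]
    conv_lhs => rw [← Subgroup.map_id Γ']
    congr 1
    ext x : 1
    simp [mul_assoc]
  rw [this, hg', ← hg, Subgroup.map_map]
  congr 1
  ext x : 1
  simp [mul_assoc]

lemma Cj.of_conj {Γ : Subgroup SL2} {u : ℂ} (g : SL2)
    (h : Cj (Γ.map (MulAut.conj g).toMonoidHom) u) : Cj Γ u := by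
  obtain ⟨g', hg'⟩ := h
  refine ⟨g' * g, ?_⟩
  rw [← hg', Subgroup.map_map]
  congr 1
  ext x : 1
  simp [mul_assoc]

lemma sq_eq (M : SL2) : (M * M).1 = trace M.1 • M.1 - 1 := by
  have := sl_det M
  rw [sl_mul, trace_fin_two]
  ext i j; fin_cases i <;> fin_cases j <;> simp [Matrix.mul_apply, Fin.sum_univ_two]
  · linear_combination -this
  · ring
  · ring
  · linear_combination -this

lemma grow_nat (M : SL2) (h : 2 ≤ ‖trace M.1‖) (k : ℕ) :
    ‖(M ^ k).1 1 0‖ ≤ ‖(M ^ (k + 1)).1 1 0‖ := by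
  induction k with
  | zero => simp
  | succ k ih =>
    have e : (M ^ (k + 1 + 1)).1 1 0 = trace M.1 * (M ^ (k + 1)).1 1 0 - (M ^ k).1 1 0 := by
      have : M ^ (k + 1 + 1) = M ^ k * (M * M) := by rw [pow_succ, pow_succ, mul_assoc]
      rw [this, sl_mul, sq_eq, pow_succ, sl_mul, mul_sub, mul_one, Matrix.mul_smul]
      simp
    rw [e]
    have h1 := norm_sub_norm_le (trace M.1 * (M ^ (k + 1)).1 1 0) ((M ^ k).1 1 0)
    rw [norm_mul] at h1
    nlinarith [norm_nonneg ((M ^ (k + 1)).1 1 0)]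

lemma grow_nat' (M : SL2) (h : 2 ≤ ‖trace M.1‖) (k : ℕ) :
    ‖M.1 1 0‖ ≤ ‖(M ^ (k + 1)).1 1 0‖ := by
  induction k with
  | zero => simp
  | succ k ih => exact ih.trans (grow_nat M h _)

lemma grow (M : SL2) (h : 2 ≤ ‖trace M.1‖) (n : ℤ) (hn : n ≠ 0) :
    ‖M.1 1 0‖ ≤ ‖(M ^ n).1 1 0‖ := by
  obtain ⟨k, rfl | rfl⟩ := Int.eq_nat_or_neg n
  · obtain ⟨k, rfl⟩ := Nat.exists_eq_succ_of_ne_zero (n := k) (by omega)
    rw [zpow_natCast]; exact grow_nat' M h k
  · obtain ⟨k, rfl⟩ := Nat.exists_eq_succ_of_ne_zero (n := k) (by omega)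
    rw [_root_.zpow_neg, zpow_natCast, sl_inv]
    simpa using grow_nat' M h k

lemma finOrder_of_trace (M : SL2) (h : trace M.1 = 0) : IsOfFinOrder M := by
  refine isOfFinOrder_iff_pow_eq_one.2 ⟨4, by norm_num, ?_⟩
  have : M ^ 4 = (M * M) * (M * M) := by simp only [pow_succ, pow_zero, one_mul, mul_assoc]
  apply sl_ext
  rw [this, sl_mul, sq_eq, h]; simp

/-- matrices with real entries -/
def realSub : Subgroup SL2 where
  carrier := {M | ∀ i j, (M.1 i j).im = 0}
  one_mem' i j := by fin_cases i <;> fin_cases j <;> simp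
  mul_mem' {A B} hA hB i j := by
    simp [Matrix.mul_apply, Fin.sum_univ_two, hA _ _, hB _ _]
  inv_mem' {A} hA i j := by
    rw [sl_inv]; fin_cases i <;> fin_cases j <;> simp [hA _ _]

lemma Gam_real (u : ℂ) (hu : u.im = 0) : Gam u ≤ realSub := by
  rw [Gam, Subgroup.closure_le]
  rintro x (rfl | rfl) i j <;> fin_cases i <;> fin_cases j <;> simp [A0, Bu, hu]

/-- shape of the conjugator -/
lemma shapeY (u : ℂ) (Y : SL2) (h : A0 * Y = Y * Bu u) :
    ∃ s y : ℂ, s ≠ 0 ∧ u = s ^ 2 ∧ Y.1 = !![y, -1 / s; s, 0] := by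
  have hd := sl_det Y
  have h' := congrArg Subtype.val h
  rw [sl_mul, sl_mul, A0, Bu] at h'
  have h1 := congrFun (congrFun h' 0) 0
  have h2 := congrFun (congrFun h' 0) 1
  simp [Matrix.mul_apply, Fin.sum_univ_two] at h1 h2
  have hs : Y.1 1 0 ≠ 0 := by
    intro h0; rw [h0, h2] at hd; simp at hd
  refine ⟨Y.1 1 0, Y.1 0 0, hs, ?_, ?_⟩
  · rw [h2] at hd
    linear_combination (-u) * hd - Y.1 1 0 * h1
  · ext i j; fin_cases i <;> fin_cases j <;> simp
    · rw [h2] at hd; field_simp; linear_combination -hd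
    · exact h2

/-- shape of a matrix commuting with `a b⁻¹` -/
lemma shapeX (u : ℂ) (hu : u ≠ 0) (X : SL2) (h : Commute X (A0 * (Bu u)⁻¹)) :
    ∃ a c : ℂ, a ^ 2 = a + 2 * c + u * c * (a + c) ∧
      X.1 = !![1 + u * a + u * c, a; u * a, 1 + u * c] := by
  have hd := sl_det X
  have h' := congrArg Subtype.val h.eq
  rw [sl_mul, sl_mul, sl_mul, sl_inv, A0, Bu] at h'
  have h1 := congrFun (congrFun h' 0) 0
  have h2 := congrFun (congrFun h' 0) 1
  simp [Matrix.mul_apply, Fin.sum_univ_two] at h1 h2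
  have e1 : X.1 1 0 = u * X.1 0 1 := by linear_combination -h1
  have e2 : X.1 0 0 = X.1 1 1 + u * X.1 0 1 := by linear_combination h2
  refine ⟨X.1 0 1, (X.1 1 1 - 1) / u, ?_, ?_⟩
  · rw [e1, e2] at hd
    field_simp
    linear_combination -hd
  · ext i j; fin_cases i <;> fin_cases j <;> simp
    · rw [e2]; field_simp; ring
    · exact e1
    · field_simp; ring

end Pool.Agent.P.MP_60bbe2_gt
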