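import Pool.Agent.P.MP_60bbe2_gt.Even

/-! Double twist knots `J(2m + 1, 2n)` of genus at least two. -/

namespace Pool.Agent.P.MP_60bbe2_gt

open Matrix Polynomial

/-- data attached to a knot of higher genus -/
def OddData (Γ : Subgroup SL2) (f : RatFunc ℂ) : Prop :=
  ∃ u l z P P' : ℂ, l ≠ 0 ∧ z ≠ 0 ∧ P + P' - 1 = l * (u + 4) ∧ Cj Γ u ∧
    Jet f P (-4 * l) (P' + z * P) (-4 * l * z)

/-- matrices with polynomial entries -/
noncomputable def PS : Subring Mat := (al.mapMatrix (m := Fin 2)).range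

lemma PS_smul (p : ℂ[X]) {M : Mat} (h : M ∈ PS) : al p • M ∈ PS := by
  obtain ⟨N, rfl⟩ := h
  exact ⟨p • N, by ext i j; simp⟩

lemma PS_mk (a b c d : ℂ) : (!![ct a, ct b; ct c, ct d] : Mat) ∈ PS :=
  ⟨!![C a, C b; C c, C d], by ext i j; fin_cases i <;> fin_cases j <;> simp [al_C]⟩

lemma PS_io (M : SL2) : io M ∈ PS :=
  ⟨M.1.map C, by ext i j; simp [io_apply, al_C]⟩

lemma PS_mix {M N : Mat} (hM : M ∈ PS) (hN : N ∈ PS) : ∃ p, mix M N = al p := by
  obtain ⟨M, rfl⟩ := hM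
  obtain ⟨N, rfl⟩ := hN
  exact ⟨mix M N, by simp [mix]⟩

lemma tt_ne_one : tt ≠ 1 := by
  intro h
  rw [← al_X, ← _root_.map_one al] at h
  have := congrArg (eval 0) (al_inj h)
  simp at this

lemma trace_io (M : SL2) : trace (io M) = ct (trace M.1) := by
  simp [trace_fin_two, io_apply]

lemma io_add_inv (M : SL2) : io M + io M⁻¹ = ct (trace M.1) • 1 := by
  rw [io_mk (sl_inv M), io_apply, trace_fin_two]
  ext i j; fin_cases i <;> fin_cases j <;> simp [add_comm]

lemma trace_inv (M : SL2) : trace (M⁻¹).1 = trace M.1 := by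
  rw [sl_inv, trace_fin_two, trace_fin_two]; simp [add_comm]

section
variable {σ : F2 →* SL2} {D : F2 → Mat} {u : ℂ}

lemma mem_Gam (ha : σ ga = A0) (hb : σ gb = Bu u) (g : F2) : σ g ∈ Gam u := by
  induction g using FreeGroup.induction_on with
  | C1 => rw [_root_.map_one]; exact one_mem _
  | of i =>
    fin_cases i
    · exact Subgroup.subset_closure (Or.inl ha)
    · exact Subgroup.subset_closure (Or.inr hb)
  | inv_of i h => rw [_root_.map_inv]; exact inv_mem h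
  | mul a b h h' => rw [_root_.map_mul]; exact mul_mem h h'

lemma range_eq (ha : σ ga = A0) (hb : σ gb = Bu u) : σ.range = Gam u := by
  apply le_antisymm
  · rintro _ ⟨g, rfl⟩; exact mem_Gam ha hb g
  · rw [Gam, Subgroup.closure_le]
    rintro x (rfl | rfl)
    · exact ⟨ga, ha⟩
    · exact ⟨gb, hb⟩

theorem odd_core (hD : Der σ D) (hu : u ≠ 0) (ha : σ ga = A0) (hb : σ gb = Bu u) (m n : ℤ)
    (hn : 2 ≤ n ∨ n ≤ -2) (htf : ∀ g, trace (σ g).1 ≠ 0)
    (hr : σ (relator (2 * m + 1) n) = 1) : OddData (Gam u) (D (relator (2 * m + 1) n)).det := by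
  rw [relator, word_odd] at hr ⊢
  have hAY := rel_Y ha hb hr
  obtain ⟨s, y, hs, hus, hY⟩ := shapeY _ _ hAY
  have hc := sig_gc ha hb
  obtain ⟨a, c, R, hX⟩ := shapeX _ hu (σ (gc ^ m)) (by
    rw [_root_.map_zpow, hc]; exact Commute.zpow_self _ m)
  obtain ⟨g, hg⟩ : ∃ g, g = 1 + u * a + u * c := ⟨_, rfl⟩
  have hV : (σ (gc ^ m * ga * (gc ^ m * gc)⁻¹)).1 =
      !![1 - u*(g+a)*g, u*(g+a)^2; -(u*g^2), 1 + u*g*(g+a)] := by
    rw [_root_.map_mul, _root_.map_mul, _root_.map_inv, _root_.map_mul, sl_mul, sl_mul, sl_inv,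
      sl_mul, ha, hX, hc, Cm_val, A0_val, hg]
    ext i j; fin_cases i <;> fin_cases j <;> simp [Matrix.mul_apply, Fin.sum_univ_two]
    · linear_combination (-u) * R
    · ring
    · ring
    · linear_combination (-u) * R
  have hW : (σ (gc ^ m * ga * (gc ^ m * gc)⁻¹ * ga)).1 =
      !![1 - u*(g+a)*g, 1 + u*(g+a)*a; -(u*g^2), 1 + u*g*a] := by
    rw [_root_.map_mul, sl_mul, hV, ha, A0_val]
    ext i j; fin_cases i <;> fin_cases j <;> simp [Matrix.mul_apply, Fin.sum_univ_two] <;> ring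
  set w := gc ^ m * ga * (gc ^ m * gc)⁻¹ * ga with hw
  have hu4 : u + 4 ≠ 0 := by
    intro h
    have h1 : u = -4 := by linear_combination h
    have h2 := Gam_real u (by rw [h1]; simp) (mem_Gam ha hb (w ^ n)) 1 0
    rw [hY] at h2
    have h3 := congrArg Complex.re (h1.symm.trans hus)
    simp [pow_two] at h2 h3
    rw [h2] at h3
    nlinarith [mul_self_nonneg s.re]
  have hl : a + c ≠ 0 := by
    intro h
    have h1 : σ w * σ (w ^ n) = σ (w ^ n) * σ w := by
      rw [← _root_.map_mul, ← _root_.map_mul, (Commute.self_zpow w n).eq]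
    have h2 := congrFun (congrFun (congrArg Subtype.val h1) 0) 1
    rw [sl_mul, sl_mul, hW, hY] at h2
    simp [Matrix.mul_apply, Fin.sum_univ_two] at h2
    have hg1 : g = 1 := by rw [hg]; linear_combination u * h
    have h3 : a * (a + 1) = 0 := by linear_combination R + (2 + u * c) * h
    field_simp at h2
    rcases mul_eq_zero.1 h3 with h3 | h3
    · apply htf (w ^ n * gb⁻¹)
      rw [_root_.map_mul, _root_.map_inv, sl_mul, sl_inv, hY, hb, Bu_val]
      simp [trace_fin_two, Matrix.mul_apply, Fin.sum_univ_two]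
      rw [h3, hg1] at h2
      field_simp
      linear_combination -h2
    · apply htf (w ^ n * gb)
      rw [_root_.map_mul, sl_mul, hY, hb, Bu_val]
      simp [trace_fin_two, Matrix.mul_apply, Fin.sum_univ_two]
      have h4 : a = -1 := by linear_combination h3
      rw [h4, hg1] at h2
      field_simp
      linear_combination -h2
  have hPP : (a + 2 * c) * (1 + u * (a + c) + 3 * a + 2 * c) ≠ 0 := by
    have : (a + 2 * c) * (1 + u * (a + c) + 3 * a + 2 * c) = (a + c) ^ 2 * (u + 4) := by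
      linear_combination -R
    rw [this]
    exact mul_ne_zero (pow_ne_zero _ hl) hu4
  obtain ⟨p1, p2, p3, p4⟩ := Dx_val hD hu ha hb m hX
  have dv : deg (gc ^ m * ga * (gc ^ m * gc)⁻¹) = 1 := by
    rw [deg_mul, deg_mul, deg_inv, deg_mul, deg_ga, deg_gc]; ring
  have dw : deg w = 2 := by rw [hw, deg_mul, dv, deg_ga]; rfl
  have q0 : io (σ (gc ^ m * ga * (gc ^ m * gc)⁻¹)) = !![1 - ct u*(ct g+ct a)*ct g,
      ct u*(ct g+ct a)^2; -(ct u*ct g^2), 1 + ct u*ct g*(ct g+ct a)] := by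
    rw [io_mk hV]; simp
  have a0 : io A0 = !![1, 1; 0, 1] := by rw [io_mk A0_val]; simp
  have b0 : io (Bu u) = !![1, 0; -ct u, 1] := by rw [io_mk (Bu_val u)]; simp
  have q1 : io (σ w) = !![1 - ct u*(ct g+ct a)*ct g,
      ct u*(ct g+ct a)^2; -(ct u*ct g^2), 1 + ct u*ct g*(ct g+ct a)] * !![1, 1; 0, 1] := by
    rw [hw, _root_.map_mul, _root_.map_mul, q0, ha, a0]
  have q2 : D w = _ := hD.odd (gc ^ m) (gc ^ m * gc)
  rw [hD.mul (gc ^ m) gc, Ph_apply σ (gc ^ m * ga * (gc ^ m * gc)⁻¹), dv, zpow_one, q0, p2, p3,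
    p4] at q2
  have R' := congrArg ct R
  have hg' := congrArg ct hg
  simp only [map_pow, map_add, _root_.map_mul, map_ofNat, _root_.map_one] at R' hg'
  obtain ⟨k1, k2⟩ := odd_alg tt _ _ _ _ R' hg' _ q2
  rw [← q1, ← b0] at k2
  have q3 := hD.comm w n
  rw [Ph_apply, Ph_apply, deg_zpow, dw, zpow_ofNat] at q3
  have key := odd_split tt (tt ^ (n * 2)) (ct (trace (σ w).1)) tt_ne_one (io A0) (io (Bu u))
    (io (σ w)) (io (σ w)⁻¹) (io (σ (w ^ n))) (D w) (D (w ^ n))
    (by rw [← _root_.map_mul, inv_mul_cancel, _root_.map_one]) (io_add_inv _) (det_io _)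
    (by rw [trace_io, trace_inv])
    (by rw [← _root_.map_mul, ← _root_.map_mul, _root_.map_zpow,
      (Commute.zpow_self (σ w) n).inv_right.eq])
    (by rw [← _root_.map_mul, ← _root_.map_mul, hAY]) (det_io _)
    (by rw [det_smul_sub, det_io, a0]; simp; ring) (by rw [det_smul_sub, det_io, b0]; simp; ring)
    _ _ k1 k2 q3
  have hDw : D w ∈ PS := by
    have m1 := PS_mk (a + a*u + c*u) (a + c) (a*u + c*u) a
    have m2 := PS_mk (1 + u * a + u * c) a (u * a) (1 + u * c)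
    have m3 := PS_mk (1 + u) 1 u 1
    simp only [map_add, _root_.map_mul, _root_.map_one] at m1 m2 m3
    rw [q2, ← q0, ← al_X]
    exact sub_mem (neg_mem m1) (mul_mem (PS_smul _ (PS_io _))
      (add_mem (neg_mem m1) (mul_mem m2 (neg_mem m3))))
  have eQ : al (1 - C (trace (σ w).1) * X ^ 2 + X ^ 4) =
      1 - ct (trace (σ w).1) * tt ^ 2 + tt ^ 4 := by
    simp only [map_add, map_sub, _root_.map_mul, map_pow, _root_.map_one, al_X, al_C]
  have m4 : (tt • io A0 - 1) * (tt ^ 2 • io (σ w)⁻¹ - 1) ∈ PS := by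
    rw [← al_X, ← map_pow]
    exact mul_mem (sub_mem (PS_smul _ (PS_io _)) (one_mem _))
      (sub_mem (PS_smul _ (PS_io _)) (one_mem _))
  obtain ⟨G, hG⟩ := PS_mix (neg_mem (mul_mem m4 hDw)) (sub_mem (mul_mem (mul_mem m4
    (PS_io (σ (w ^ n)))) hDw) (PS_smul (1 - C (trace (σ w).1) * X ^ 2 + X ^ 4) (PS_io (σ (w ^ n)))))
  rw [eQ] at hG
  rw [hG] at key
  rw [hD.rel _ hr, Ph_apply, deg_ga, zpow_one, ha, Ph_apply, deg_zpow, dw]
  generalize ((tt • io A0 - 1) * D (w ^ n) - tt ^ (n * 2) • io (σ (w ^ n))).det = f at key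
  have hz := htf w
  generalize trace (σ w).1 = z at key hz eQ
  rcases hn with hn | hn
  · obtain ⟨k, rfl⟩ : ∃ k : ℕ, n = k + 2 := ⟨(n - 2).toNat, by omega⟩
    refine ⟨u, a + c, z, a + 2 * c, 1 + u * (a + c) + 3 * a + 2 * c, hl, hz, by ring, Cj_self u,
      jet_odd 0 (left_ne_zero_of_mul hPP) (X ^ (2 * k) * G + X ^ (4 * k + 4) * ((X - 1) ^ 2 *
        (1 - C z * X ^ 2 + X ^ 4) * (C (1 + u * (a + c) + 3 * a + 2 * c) - 4 * C (a + c) * X +
          C (a + 2 * c) * X ^ 2))) ?_⟩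
    have e : tt ^ (((k : ℤ) + 2) * 2) = tt ^ (2 * k + 4) := by
      rw [← zpow_natCast]; congr 1; push_cast; ring
    rw [e] at key
    simp only [map_add, map_sub, _root_.map_mul, map_pow, _root_.map_one, al_X, al_C, map_ofNat,
      zpow_zero, one_mul]
    rw [key]; ring
  · obtain ⟨k, rfl⟩ : ∃ k : ℕ, n = -(k + 2) := ⟨(-n - 2).toNat, by omega⟩
    refine ⟨u, a + c, z, 1 + u * (a + c) + 3 * a + 2 * c, a + 2 * c, hl, hz, by ring, Cj_self u,
      jet_odd (-(4 * k + 8 : ℕ)) (right_ne_zero_of_mul hPP) (X ^ (2 * k) * G + X ^ (4 * k + 4) *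
        ((X - 1) ^ 2 * (1 - C z * X ^ 2 + X ^ 4) * (C (a + 2 * c) - 4 * C (a + c) * X +
          C (1 + u * (a + c) + 3 * a + 2 * c) * X ^ 2))) ?_⟩
    have e : tt ^ (-((k : ℤ) + 2) * 2) = (tt ^ (2 * k + 4))⁻¹ := by
      rw [← zpow_natCast, ← _root_.zpow_neg]; congr 1; push_cast; ring
    rw [e] at key
    simp only [map_add, map_sub, _root_.map_mul, map_pow, _root_.map_one, al_X, al_C, map_ofNat,
      _root_.zpow_neg, zpow_natCast]
    rw [key]
    have := tt_ne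
    field_simp
    ring

end

end Pool.Agent.P.MP_60bbe2_gt
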